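import Pool.Agent.N889.WU.Stm
import Pool.Agent.Y93.SB.Cmp

/-!
# Project WU, part BC (helper774): algebraically closed fields of constants
-/

set_option autoImplicit false

open Polynomial IntermediateField

namespace Pool.Agent.N774.WU

open Pool.Agent.N889.WU

universe u

/-- BC -/
theorem t_BC : S_BC.{u} := by
  intro k L _ _ _ t ht hfin
  let k' : IntermediateField k (AlgebraicClosure L) := algebraicClosure k (AlgebraicClosure L)
  have hac : IsAlgClosed k' := (algebraicClosure.isAlgClosure k (AlgebraicClosure L)).isAlgClosed
  have hal : Algebra.IsAlgebraic k k' := inferInstance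
  let M : IntermediateField k' (AlgebraicClosure L) :=
    IntermediateField.adjoin k' (Set.range (algebraMap L (AlgebraicClosure L)))
  have hmem : ∀ x : L, algebraMap L (AlgebraicClosure L) x ∈ M := fun x =>
    IntermediateField.subset_adjoin _ _ ⟨x, rfl⟩
  let j : L →+* M := (algebraMap L (AlgebraicClosure L)).codRestrict M hmem
  have hj : ∀ x : L, ((j x : M) : AlgebraicClosure L) = algebraMap L (AlgebraicClosure L) x :=
    fun x => rfl
  have hcomm : ∀ a : k, j (algebraMap k L a) = algebraMap k' M (algebraMap k k' a) := by
    intro a
    apply Subtype.ext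
    rw [hj, ← IsScalarTower.algebraMap_apply k L (AlgebraicClosure L)]
    rfl
  have htop : IntermediateField.adjoin k' (Set.range j) = ⊤ := by
    apply IntermediateField.map_injective M.val
    rw [IntermediateField.adjoin_map, ← AlgHom.fieldRange_eq_map, IntermediateField.fieldRange_val]
    have h1 : M.val '' Set.range j = Set.range (algebraMap L (AlgebraicClosure L)) := by
      rw [← Set.range_comp]
      rfl
    rw [h1]
  obtain ⟨h1, h2, h3⟩ := Pool.Agent.Y93.SB.t_CMP k L k' M j hcomm htop t ht hfin
  refine ⟨k', M, inferInstance, hac, inferInstance, inferInstance, algebraMap k k', j, j t, hcomm,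
    rfl, h1, h2, h3, fun c hc h => hc ?_⟩
  have h4 : IsAlgebraic k' (algebraMap L (AlgebraicClosure L) c) :=
    (isAlgebraic_algHom_iff M.val M.val.injective).2 h
  have h5 : IsAlgebraic k (algebraMap L (AlgebraicClosure L) c) := h4.restrictScalars k
  exact (isAlgebraic_algebraMap_iff (algebraMap L (AlgebraicClosure L)).injective).1 h5

end Pool.Agent.N774.WU
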